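import Pool.Agent.P.MP_860a31_lc.E2.Swap

/-!
Along a long sequence of elements, club many members have the same type as an earlier member
over any small set that has appeared before.
-/

open Cardinal hiding univ
open Set Order Filter Function

namespace Pool.Agent.P.MP_860a31_lc.E.Sat2

open PC

/-- club many points have many predecessors of the same colour -/
theorem ev_many {θ : Cardinal.{0}} {Col : Type} (col : J (succ θ) → Col)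
    (V : J (succ θ) → Set Col) (hV : ∀ a, #(V a) ≤ succ θ) :
    ∀ᶠ δ in cf (succ θ), ∀ a < δ, col δ ∈ V a → θ < #{γ | γ < δ ∧ col γ = col δ} := by
  have h1 : ∀ k : Col, ∃ b : J (succ θ), (∀ γ, col γ = k → γ < b) ∨
      θ < #{γ | γ < b ∧ col γ = k} := fun k => by
    by_cases h : #{γ | col γ = k} ≤ succ θ
    · obtain ⟨b, hb⟩ := J.bdd h
      exact ⟨b, Or.inl hb⟩
    · obtain ⟨s, hs, hs'⟩ := le_mk_iff_exists_subset.1 (not_le.1 h).le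
      obtain ⟨b, hb⟩ := J.bdd hs'.le
      exact ⟨b, Or.inr ((lt_succ θ).trans_le (hs'.ge.trans (mk_le_mk_of_subset fun γ hγ =>
        ⟨hb γ hγ, hs hγ⟩)))⟩
  choose b hb using h1
  choose g hg using fun a => J.bdd_fun (hV a) fun k : V a => b k
  filter_upwards [ev_closed g] with δ hδ a ha hc
  have h2 : b (col δ) < δ := (hg a ⟨_, hc⟩).trans (hδ a ha)
  rcases hb (col δ) with h | h
  · exact absurd (h δ rfl) h2.not_gt
  · exact h.trans_le (mk_le_mk_of_subset fun γ hγ => ⟨hγ.1.trans h2, hγ.2⟩)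

variable {C : AC}

theorem conv_ev (P : Fam C.toPC) {θ : Cardinal.{0}} (hθ : ℵ₀ ≤ θ)
    (hP : ∀ n, #(C.U (P.ob n)) ≤ θ) (hS : C.PStab θ Unit) {Λ : Type} [LinearOrder Λ]
    (X : J (succ θ) → Set (C.U (P.ev Λ))) (hX : ∀ a, #(X a) ≤ succ θ)
    (c : J (succ θ) → C.U (P.ev Λ)) :
    ∀ᶠ δ in cf (succ θ), ∀ S : Set (C.U (P.ev Λ)), #S ≤ θ → (∀ y ∈ S, ∃ β < δ, y ∈ X β) →
      ∃ γ < δ, C.El (P.ev Λ) (P.ev Λ) (I1 S (c γ) (c δ)) := by
  classical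
  have hμ : ℵ₀ ≤ succ θ := hθ.trans (le_succ θ)
  let D : Type := Σ n : ℕ, (Fin n ↪o Λ) × C.U (P.ob n)
  let val : D → C.U (P.ev Λ) := fun d => P.evi d.2.1 d.2.2
  have hval : ∀ y, ∃ d, val d = y := fun y => by
    obtain ⟨n, s, x, h⟩ := Fam.evi_surj (C := C.toCC) y
    exact ⟨⟨n, s, x⟩, h⟩
  choose d hd using hval
  let sup : Set (C.U (P.ev Λ)) → Set Λ := fun S => range fun p : Σ y : S, Fin (d y).1 => (d p.1).2.1 p.2
  have hsup : ∀ (S : Set (C.U (P.ev Λ))) (ν : Cardinal.{0}), ℵ₀ ≤ ν → #S ≤ ν → #(sup S) ≤ ν :=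
    fun S ν hν h => mk_range_le.trans (card_cover (fun y i => (⟨y, i⟩ : Σ y : S, Fin (d y).1))
      (fun p => ⟨p.1, p.2, rfl⟩) hν h fun _ => mk_le_aleph0.trans hν)
  let L : J (succ θ) → Set Λ := fun δ => ⋃ β : Iio δ, sup (insert (c β) (X β))
  have hL : ∀ δ, #(L δ) ≤ succ θ := fun δ => (mk_iUnion_le _).trans
    (mul_le_of_le hμ (J.iio hμ δ) (ciSup_le' fun β => hsup _ _ hμ
      (mk_insert_le.trans (add_le_of_le hμ (hX _) (one_le_aleph0.trans hμ)))))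
  have hLm : ∀ β δ, β < δ → ∀ y ∈ insert (c β) (X β), ∀ i, (d y).2.1 i ∈ L δ :=
    fun β δ h y hy i => mem_iUnion.2 ⟨⟨β, h⟩, ⟨⟨y, hy⟩, i⟩, rfl⟩
  let Col : Type := Σ n : ℕ, C.U (P.ob n) × (Fin n → Option Λ)
  let cl : Set Λ → D → Col := fun Y e =>
    ⟨e.1, e.2.2, fun i => if e.2.1 i ∈ Y then some (e.2.1 i) else none⟩
  have key : ∀ (Y Y' Z : Set Λ) (e e' : D), #Z ≤ θ → cl Y e = cl Y' e' →
      (∀ i, e.2.1 i ∉ Y → e.2.1 i ∉ Z) → Z ⊆ Y' →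
      C.El (P.ev Λ) (P.ev Λ) (I1 (NZ P Z) (val e) (val e')) := by
    rintro Y Y' Z ⟨n, s, x⟩ ⟨n', s', x'⟩ hZ h h1 h2
    obtain ⟨rfl, h⟩ := Sigma.mk.inj_iff.1 h
    obtain ⟨rfl, h3⟩ := Prod.mk.inj (eq_of_heq h)
    refine swap P hθ hP hS hZ x s s' fun i => ?_
    have h4 := congrFun h3 i
    by_cases k1 : s i ∈ Y <;> by_cases k2 : s' i ∈ Y' <;> simp only [k1, k2, if_true, if_false] at h4
    · exact Or.inl (Option.some_injective _ h4)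
    · cases h4
    · cases h4
    · exact Or.inr ⟨h1 i k1, fun k => k2 (h2 k)⟩
  let V : J (succ θ) → Set Col := fun a => range
    fun p : Σ n : ℕ, C.U (P.ob n) × (Fin n → Option (L a)) =>
      (⟨p.1, p.2.1, fun i => (p.2.2 i).map Subtype.val⟩ : Col)
  have hV : ∀ a, #(V a) ≤ succ θ := fun a => by
    refine mk_range_le.trans (card_cover (fun n q => (⟨n, q⟩ : Σ n : ℕ, C.U (P.ob n) ×
      (Fin n → Option (L a)))) (fun p => ⟨p.1, p.2, rfl⟩) hμ (mk_le_aleph0.trans hμ) fun n => ?_)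
    rw [mk_prod, lift_id, lift_id, mk_arrow, lift_id, lift_id, mk_fin, power_natCast, mk_option]
    exact mul_le_of_le hμ ((hP n).trans (le_succ θ)) ((pow_le_pow_left'
      (add_le_of_le hμ (hL a) (one_le_aleph0.trans hμ)) n).trans (power_nat_le hμ))
  filter_upwards [ev_many (fun γ => cl (L γ) (d (c γ))) V hV, ev_lim] with δ hδ hl S hS' hSX
  have ha : ∃ a < δ, ∀ i, (d (c δ)).2.1 i ∈ L δ → (d (c δ)).2.1 i ∈ L a := by
    have : ∀ i, ∃ β < δ, (d (c δ)).2.1 i ∈ L δ → ∀ a, β ≤ a → (d (c δ)).2.1 i ∈ L a := fun i => by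
      by_cases h : (d (c δ)).2.1 i ∈ L δ
      · obtain ⟨β, hβ⟩ := mem_iUnion.1 h
        exact ⟨succ β.1, hl.succ_lt β.2, fun _ a h' =>
          mem_iUnion.2 ⟨⟨β, (lt_succ _).trans_le h'⟩, hβ⟩⟩
      · exact ⟨⊥, hl.bot_lt, fun h' => absurd h' h⟩
    choose β h1 h2 using this
    exact ⟨Finset.univ.sup β, (Finset.sup_lt_iff hl.bot_lt).2 fun i _ => h1 i,
      fun i h => h2 i h _ (Finset.le_sup (Finset.mem_univ i))⟩
  obtain ⟨a, ha, ha'⟩ := ha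
  have hm := hδ a ha ⟨⟨_, (d (c δ)).2.2, fun i =>
    if h : (d (c δ)).2.1 i ∈ L δ then some ⟨_, ha' i h⟩ else none⟩, by
      refine congrArg (fun f => (⟨_, (d (c δ)).2.2, f⟩ : Col)) (funext fun i => ?_)
      by_cases h : (d (c δ)).2.1 i ∈ L δ <;> simp [h]⟩
  have hZ := hsup S θ hθ hS'
  have hex : ∃ γ, (γ < δ ∧ cl (L γ) (d (c γ)) = cl (L δ) (d (c δ))) ∧
      ∀ i, (d (c γ)).2.1 i ∉ L γ → (d (c γ)).2.1 i ∉ sup S := by
    by_contra hc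
    push Not at hc
    choose i h1 h2 using hc
    refine (hZ.trans_lt hm).not_ge (mk_le_of_injective
      (f := fun γ => (⟨_, h2 γ.1 γ.2⟩ : sup S)) fun γ γ' e => ?_)
    have e' : (d (c γ)).2.1 (i γ.1 γ.2) = (d (c γ')).2.1 (i γ'.1 γ'.2) := congrArg Subtype.val e
    by_contra hne
    rcases lt_or_gt_of_ne (fun e => hne (Subtype.ext e) : γ.1 ≠ γ'.1) with h | h
    · exact h1 γ'.1 γ'.2 (e' ▸ hLm _ _ h _ (mem_insert _ _) _)
    · exact h1 γ.1 γ.2 (e'.symm ▸ hLm _ _ h _ (mem_insert _ _) _)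
  obtain ⟨γ, ⟨h1, h2⟩, h3⟩ := hex
  refine ⟨γ, h1, (key _ _ _ _ _ hZ h2 h3 ?_).mono ?_⟩
  · rintro _ ⟨⟨y, i⟩, rfl⟩
    obtain ⟨β, hβ, hy⟩ := hSX y y.2
    exact hLm β δ hβ _ (mem_insert_of_mem _ hy) i
  · rintro _ _ (⟨hy, rfl⟩ | ⟨rfl, rfl⟩)
    · exact Or.inl ⟨⟨_, _, _, fun i => ⟨⟨⟨_, hy⟩, i⟩, rfl⟩, hd _⟩, rfl⟩
    · exact Or.inr ⟨hd _, hd _⟩

/-- the same statement in an object that embeds into a value of the family -/
theorem conv (P : Fam C.toPC) {θ : Cardinal.{0}} (hθ : ℵ₀ ≤ θ)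
    (hP : ∀ n, #(C.U (P.ob n)) ≤ θ) (hS : C.PStab θ Unit) {Λ : Type} [LinearOrder Λ] {T : C.Obj}
    {f : C.U T → C.U (P.ev Λ)} (hf : C.IsH f) (X : J (succ θ) → Set (C.U T))
    (hX : ∀ a, #(X a) ≤ succ θ) (c : J (succ θ) → C.U T) :
    ∀ᶠ δ in cf (succ θ), ∀ S : Set (C.U T), #S ≤ θ → (∀ y ∈ S, ∃ β < δ, y ∈ X β) →
      ∃ γ < δ, C.El T T (I1 S (c γ) (c δ)) := by
  filter_upwards [conv_ev P hθ hP hS (fun a => f '' X a) (fun a => mk_image_le.trans (hX a))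
    fun a => f (c a)] with δ hδ S hS' hSX
  obtain ⟨γ, h1, h2⟩ := hδ (f '' S) (mk_image_le.trans hS') (by
    rintro _ ⟨y, hy, rfl⟩
    obtain ⟨β, hβ, hy'⟩ := hSX y hy
    exact ⟨β, hβ, y, hy', rfl⟩)
  refine ⟨γ, h1, h2.pull hf hf ?_⟩
  rintro _ _ (⟨hy, rfl⟩ | ⟨rfl, rfl⟩)
  · exact Or.inl ⟨⟨_, hy, rfl⟩, rfl⟩
  · exact Or.inr ⟨rfl, rfl⟩

end Pool.Agent.P.MP_860a31_lc.E.Sat2
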