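import Pool.Agent.P.MP_860a31_lc.E2.Lim
import Pool.Agent.P.MP_860a31_lc.E.KStm

/-!
The object in the categoricity cardinal is saturated, whatever the cofinality.
-/

open Cardinal hiding univ
open Set Order Filter Function

namespace Pool.Agent.P.MP_860a31_lc.E

open PC

namespace Sat2

/-- a proper saturated extension of the same size -/
theorem sat_step (h1 : S_KStab) (h2 : S_UnivExt) (K : KC) {μ ν : Cardinal.{0}} (hk : K.k0 ≤ μ)
    (hμ : succ μ ≤ ν) (hν : ν < K.lam) (A : K.Obj) (hA : #(K.U A) ≤ ν) :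
    ∃ (A' : K.Obj) (g : K.U A → K.U A'), K.IsH g ∧ #(K.U A') ≤ ν ∧ K.Sat μ A' ∧
      ∃ b, b ∉ range g := by
  have hle := (le_succ μ).trans hμ
  have hk' := hk.trans hle
  have hi := K.inf.trans hk'
  obtain ⟨B, f, b, hf, hb⟩ := KC.proper (hA.trans_lt hν)
  obtain ⟨B0, k, l1, l2, l3⟩ := ls' hk' B (S := insert b (range f))
    (mk_insert_le.trans (add_le_of_le hi (mk_range_le.trans hA) (one_le_aleph0.trans hi)))
  obtain ⟨f0, m1, m2⟩ := factor hf l1 ((subset_insert _ _).trans l2)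
  obtain ⟨b0, rfl⟩ := l2 (mem_insert _ _)
  obtain ⟨M, rfl⟩ := exists_uch (C := K.toAC) h2 (K.inf.trans hk) hle hk'
    (h1 K ν Unit hk' hν (by simp)) B0 l3
  refine ⟨M.T, fun x => M.u ⊥ (f0 x), K.comp m1 (M.uh ⊥), M.card_T (K.inf.trans hk) hμ le_rfl,
    M.sat hle, M.u ⊥ b0, ?_⟩
  rintro ⟨x, hx⟩
  exact hb ⟨x, by rw [← m2, K.inj (M.uh ⊥) hx]⟩

/-- an object of size `lam` that is an increasing union of saturated subobjects -/
theorem exists_union (h1 : S_KStab) (h2 : S_UnivExt) (K : KC) {μ : Cardinal.{0}} (hk : K.k0 ≤ μ)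
    (hμ : succ μ < K.lam) : ∃ (T : K.Obj) (F : W K.lam → K.Obj) (u : ∀ a, K.U (F a) → K.U T),
      #(K.U T) = K.lam ∧ (∀ a, K.IsH (u a)) ∧ (∀ a b, a ≤ b → range (u a) ⊆ range (u b)) ∧
      (∀ y, ∃ a x, u a x = y) ∧ ∀ a, K.Sat μ (F (succ a)) := by
  have hl := K.lam_inf
  have hmono : ∀ a b : W K.lam, a ≤ b → #(Iio a) + succ μ ≤ #(Iio b) + succ μ := fun a b h =>
    add_le_add (mk_le_mk_of_subset (Iio_subset_Iio h)) le_rfl
  have hk' : ∀ a : W K.lam, succ μ ≤ #(Iio a) + succ μ := fun a => self_le_add_left _ _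
  have hlt : ∀ a : W K.lam, #(Iio a) + succ μ < K.lam := fun a => add_lt_of_lt hl (W.iio hl a) hμ
  obtain ⟨A, -⟩ := K.cat_ex
  obtain ⟨A0, -, -, -, h0⟩ := ls' ((hk.trans (le_succ μ)).trans (hk' ⊥)) A (S := ∅) (by simp)
  obtain ⟨F, t, -, k1, k2, k3, k4, k5, -⟩ := gchain (Λ := W K.lam) (St := K.Obj) (ι := Unit)
    (fun S _ => K.U S) (fun S S' f => K.IsH (f ())) (fun S => K.idH _)
    (fun _ _ _ f g hf hg => K.comp hf hg) (fun a S => #(K.U S) ≤ #(Iio a) + succ μ)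
    (fun a S S' f => K.Sat μ S' ∧ ∃ b, b ∉ range (f ())) A0 h0
    (by
      intro a S hS
      obtain ⟨A', g, n1, n2, n3⟩ := sat_step h1 h2 K hk (hk' a) (hlt a) S hS
      exact ⟨A', fun _ => g, n1, n2.trans (hmono _ _ (le_succ a)), n3⟩)
    (by
      intro δ hδ c hc _
      have : Nonempty (Iio δ) := ⟨⟨⊥, hδ.bot_lt⟩⟩
      obtain ⟨B, u, l1, l2, l3⟩ := K.colim (Iio δ) c.F
        (fun a b h => c.t a b h ()) (fun a b h => c.hom a b h) (fun a => c.t_id a ())
        (fun a b d h h' => c.t_comp a b d h h' ())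
      exact ⟨B, fun a _ => u a, card_cover u l3
        (((K.inf.trans hk).trans (le_succ μ)).trans (hk' δ)) (self_le_add_right _ _)
        fun a => (hc a).trans (hmono _ _ a.2.le), l1, fun a b h _ => l2 a b h, fun _ => l3⟩)
  obtain ⟨T, u, l1, l2, l3⟩ := K.colim (W K.lam) F (fun a b h => t a b h ())
    (fun a b h => k2 a b h) (fun a => k3 a ()) (fun a b d h h' => k4 a b d h h' ())
  choose k6 p hp using k5
  refine ⟨T, F, u, ?_, l1, fun a b h => ?_, l3, k6⟩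
  · refine le_antisymm (card_cover u l3 hl (W.card hl).le fun a => (k1 a).trans (hlt a).le) ?_
    refine (W.card hl).ge.trans (mk_le_of_injective (f := fun a => u (succ a) (p a)) ?_)
    have key : ∀ a b, a < b → u (succ a) (p a) ≠ u (succ b) (p b) := fun a b h e => by
      refine hp b ⟨t _ b (succ_le_of_lt h) () (p a), K.inj (l1 (succ b)) ?_⟩
      rw [l2, l2, e]
    intro a b e
    by_contra hne
    rcases lt_or_gt_of_ne hne with h | h
    · exact key a b h e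
    · exact key b a h e.symm
  · rintro _ ⟨x, rfl⟩
    exact ⟨_, l2 a b h x⟩

/-- a club contains the supremum of a copy of any small well-order without last element -/
theorem exists_copy {μ : Cardinal.{0}} {D : Set (J μ)} (hD : IsClub D) (s : Type)
    [LinearOrder s] [WellFoundedLT s] [Nonempty s] [NoMaxOrder s] (hs : #s ≤ μ) :
    ∃ (e : s → J μ) (δ : J μ), StrictMono e ∧ δ ∈ D ∧ IsSuccLimit δ ∧ (∀ j, e j < δ) ∧
      ∀ i < δ, ∃ j, i < e j := by
  have h1 : #s < #D := hs.trans_lt (by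
    by_contra h
    obtain ⟨b, hb⟩ := J.bdd (not_lt.1 h)
    obtain ⟨c, hc, hbc⟩ := hD.isCofinal b
    exact (hb c hc).not_ge hbc)
  obtain ⟨e, he⟩ := wo s D h1
  have he' : StrictMono fun j => (e j : J μ) := fun a b h => he h
  obtain ⟨δ, k1, k2, k3, k4⟩ := exists_sup (fun j => (e j : J μ)) (J.bdd_fun hs _)
    fun j => (exists_gt j).imp fun _ h => he' h
  exact ⟨_, δ, he', hD.dirSupClosed (by rintro _ ⟨j, rfl⟩; exact (e j).2) (range_nonempty _)
    (DirectedOn.of_linearOrder _) k1, k2, k3, k4⟩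

end Sat2

open Sat2

theorem kSat2 (hB : S_Base) (h1 : S_KStab) (h2 : S_UnivExt) (h3 : S_RealExt) (h4 : S_RealChain)
    (K : KC) (A : K.Obj) (hA : #(K.U A) = K.lam) (θ : Cardinal.{0}) (hk : K.k0 ≤ θ)
    (hθ : succ (succ θ) < K.lam) : K.Sat θ A := by
  have hl := K.lam_inf
  have hk' := hk.trans (le_succ θ)
  have hi := K.inf.trans hk'
  have hμ := (le_succ _).trans_lt hθ
  have hS := h1 K θ Unit hk ((le_succ _).trans_lt hμ) (by simp)
  obtain ⟨T, F, u, hT, l1, l2, l3, l4⟩ := exists_union h1 h2 K hk' hθ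
  obtain ⟨P, x, hx, hP⟩ := hB K
  obtain ⟨A0, -, -, -, h0⟩ := ls' hk' A (S := ∅) (by simp)
  obtain ⟨M, -⟩ := exists_uch (C := K.toAC) h2 hi le_rfl hk' (h1 K _ Unit hk' hμ (by simp)) A0 h0
  have hW : #(W K.lam) = K.lam := W.card hl
  obtain ⟨f, hf⟩ := KC.univ_lam (B := P.ev (W K.lam)) (M.card_T hi hθ.le hμ.le) (le_antisymm
    (Fam.card_ev_le (C := K.toCC) P _ hl hW.le fun n => (hP n).trans K.k0_lt.le)
    (hW.ge.trans (Fam.le_card_ev (C := K.toCC) hx _)))
  obtain ⟨D, hD, hD'⟩ := ev_iff.1 (ev_real1 P hk (fun n => (hP n).trans hk) hS M hf)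
  have hR : Real1 K.toAC θ T := by
    intro B g hg hB'
    choose ix px hpx using l3
    by_cases hb : ∃ b, ∀ y, ix (g y) ≤ b
    · obtain ⟨b, hb⟩ := hb
      obtain ⟨g', m1, m2⟩ := factor hg (l1 (succ b)) (by
        rintro _ ⟨y, rfl⟩
        exact l2 _ _ ((hb y).trans (le_succ b)) ⟨_, hpx _⟩)
      exact real_post (real_of_univ hk' (l4 b) m1 (hB'.trans (le_succ θ))) (l1 _) m2
    push Not at hb
    let s : Set (W K.lam) := range fun y => ix (g y)
    have : Nonempty s := ⟨⟨_, Classical.arbitrary _, rfl⟩⟩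
    have : NoMaxOrder s := ⟨fun j => by
      obtain ⟨y, hy⟩ := hb j
      exact ⟨⟨_, y, rfl⟩, hy⟩⟩
    obtain ⟨e, δ, m1, m2, m3, m4, m5⟩ := exists_copy hD s
      (mk_range_le.trans (hB'.trans (le_succ θ)))
    obtain ⟨k, n1, n2⟩ := back_forth hk' M m3
      (fun i => {y | ∀ j : s, i ≤ e j → y ∈ range (u (succ j.1))})
      (fun i i' h y hy j hj => hy j (h.trans hj))
      (fun i hi' => by
        obtain ⟨j, hj, hmin⟩ := (wellFounded_lt (α := s)).has_min {j | i ≤ e j}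
          ((m5 i hi').imp fun _ h => h.le)
        refine ⟨_, u (succ j.1), l1 _, subset_antisymm (fun y hy j' hj' => ?_) fun y hy => hy j hj,
          l4 _⟩
        exact l2 _ _ (succ_le_succ (not_lt.1 (hmin j' hj'))) hy)
      (S := range g) (mk_range_le.trans (hB'.trans (le_succ θ))) (by
        rintro _ ⟨y, rfl⟩
        exact ⟨e ⟨_, y, rfl⟩, m4 _, fun j hj => l2 _ _
          ((show ix (g y) ≤ j.1 from m1.le_iff_le.1 hj).trans (le_succ _)) ⟨_, hpx _⟩⟩)
    obtain ⟨g', p1, p2⟩ := factor hg n1 n2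
    exact real_post (hD' δ m2 B g' p1 hB') n1 p2
  obtain ⟨f, hf, hs⟩ := K.cat T A hT hA
  exact Sat.iso (sat_of_real1 h3 h4 hk hS hR) hf hs

theorem satH (hB : S_Base) (h1 : S_KStab) (h2 : S_UnivExt) (h3 : S_RealExt) (h4 : S_RealChain)
    (K : KC) {κ : Cardinal.{0}} (hk : K.k0 ≤ κ) (hκ : hanf κ ≤ K.lam) : K.SatH κ := by
  have hi := K.inf.trans hk
  have hs : ∀ {χ}, χ < hanf κ → succ χ < hanf κ := fun h =>
    (succ_le_of_lt (cantor _)).trans_lt (pow_lt_hanf' hi h)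
  exact ⟨hκ, fun A hA χ hχ => (kSat2 hB h1 h2 h3 h4 K A hA (max χ κ) (hk.trans (le_max_right _ _))
    ((hs (hs (max_lt hχ (lt_hanf hi)))).trans_le hκ)).mono (le_max_left _ _)⟩

end Pool.Agent.P.MP_860a31_lc.E
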