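import Pool.Agent.P.MP_860a31_lc.E2.Conv
import Pool.Agent.P.MP_860a31_lc.E.Stm

/-!
Long universal chains: club many stages realise all types over their small subobjects, and a
limit stage embeds into a union of saturated subobjects covering a given small set.
-/

open Cardinal hiding univ
open Set Order Filter Function

namespace Pool.Agent.P.MP_860a31_lc.E.Sat2

open PC

variable {C : AC}

/-- all types over small subobjects are realised -/
def Real1 (C : AC) (θ : Cardinal.{0}) (T : C.Obj) : Prop :=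
  ∀ (A : C.Obj) (g : C.U A → C.U T), C.IsH g → #(C.U A) ≤ θ → C.Real g

theorem real_of_univ {ν : Cardinal.{0}} (hν : C.k0 ≤ ν) {A E E' : C.Obj} {h : C.U E → C.U E'}
    (hh : C.Univ ν h) {g : C.U A → C.U E} (hg : C.IsH g) (hA : #(C.U A) ≤ ν) :
    C.Real (fun x => h (g x)) := by
  intro Z e c he
  have hi := C.inf.trans hν
  obtain ⟨B, k, l1, l2, l3⟩ := ls' hν Z (S := insert c (range e))
    (mk_insert_le.trans (add_le_of_le hi (mk_range_le.trans hA) (one_le_aleph0.trans hi)))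
  obtain ⟨e', m1, m2⟩ := factor he l1 ((subset_insert _ _).trans l2)
  obtain ⟨c', rfl⟩ := l2 (mem_insert _ _)
  obtain ⟨f, n1, n2⟩ := Univ.ext hh m1 hg l3
  refine ⟨f c', (El.span l1 n1).mono ?_⟩
  rintro _ _ (⟨x, rfl, rfl⟩ | ⟨rfl, rfl⟩)
  · exact ⟨e' x, m2 x, n2 x⟩
  · exact G.mk _ _ _

theorem real_post {A E E' : C.Obj} {g : C.U A → C.U E} (hg : C.Real g) {h : C.U E → C.U E'}
    (hh : C.IsH h) {g' : C.U A → C.U E'} (e : ∀ x, h (g x) = g' x) : C.Real g' := by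
  intro Z e0 c he
  obtain ⟨a, H⟩ := hg Z e0 c he
  refine ⟨h a, El.push (C.idH _) hh H ?_⟩
  rintro _ _ (⟨x, rfl, rfl⟩ | ⟨rfl, rfl⟩)
  · exact ⟨_, _, Or.inl (G.mk _ _ x), rfl, e x⟩
  · exact ⟨_, _, Or.inr ⟨rfl, rfl⟩, rfl, rfl⟩

/-- a continuous chain with universal steps, and its union -/
structure UCh (C : AC) (μ ν : Cardinal.{0}) where
  F : J μ → C.Obj
  T : C.Obj
  t : ∀ a b, a ≤ b → C.U (F a) → C.U (F b)
  u : ∀ a, C.U (F a) → C.U T
  card : ∀ a, #(C.U (F a)) ≤ ν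
  th : ∀ a b h, C.IsH (t a b h)
  uh : ∀ a, C.IsH (u a)
  ut : ∀ a b h x, u b (t a b h x) = u a x
  cov : ∀ y, ∃ a x, u a x = y
  univ : ∀ a, C.Univ ν (t a (succ a) (le_succ a))
  cont : ∀ δ, IsSuccLimit δ → ∀ y, ∃ a, ∃ h : a < δ, ∃ x, t a δ h.le x = y

theorem exists_uch (h2 : S_UnivExt) {μ ν : Cardinal.{0}} (hμ : ℵ₀ ≤ μ) (hμν : μ ≤ ν)
    (hν : C.k0 ≤ ν) (hS : C.PStab ν Unit) (A : C.Obj) (hA : #(C.U A) ≤ ν) :
    ∃ M : UCh C μ ν, M.F ⊥ = A := by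
  obtain ⟨F, t, k0, k1, k2, k3, k4, k5, k6⟩ := gchain (Λ := J μ) (St := C.Obj) (ι := Unit)
    (fun S _ => C.U S) (fun S S' f => C.IsH (f ())) (fun S => C.idH _)
    (fun _ _ _ f g hf hg => C.comp hf hg) (fun _ S => #(C.U S) ≤ ν)
    (fun _ S S' f => C.Univ ν (f ())) A hA
    (by
      intro a S hS'
      obtain ⟨A', g, n1, n2, n3⟩ := h2 C ν hν hS S hS'
      exact ⟨A', fun _ => g, n1, n2, n3⟩)
    (by
      intro δ hδ c hc _
      have : Nonempty (Iio δ) := ⟨⟨⊥, hδ.bot_lt⟩⟩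
      obtain ⟨B, u, l1, l2, l3⟩ := C.colim (Iio δ) c.F
        (fun a b h => c.t a b h ()) (fun a b h => c.hom a b h) (fun a => c.t_id a ())
        (fun a b d h h' => c.t_comp a b d h h' ())
      exact ⟨B, fun a _ => u a, card_cover u l3 (hμ.trans hμν) ((J.iio hμ δ).trans hμν) hc, l1,
        fun a b h _ => l2 a b h, fun _ => l3⟩)
  obtain ⟨T, u, l1, l2, l3⟩ := C.colim (J μ) F (fun a b h => t a b h ())
    (fun a b h => k2 a b h) (fun a => k3 a ()) (fun a b d h h' => k4 a b d h h' ())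
  exact ⟨⟨F, T, fun a b h => t a b h (), u, k1, k2, l1, l2, l3, k5, fun δ hδ => k6 δ hδ ()⟩, k0⟩

namespace UCh

variable {μ ν : Cardinal.{0}} (M : UCh C μ ν)

theorem mono {a b : J μ} (h : a ≤ b) : range (M.u a) ⊆ range (M.u b) := by
  rintro _ ⟨x, rfl⟩
  exact ⟨_, M.ut a b h x⟩

theorem card_T {χ : Cardinal.{0}} (hμ : ℵ₀ ≤ μ) (h1 : succ μ ≤ χ) (h2 : ν ≤ χ) :
    #(C.U M.T) ≤ χ :=
  card_cover M.u M.cov ((hμ.trans (le_succ μ)).trans h1) ((J.card hμ).trans_le h1)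
    fun a => (M.card a).trans h2

theorem sat (h : μ ≤ ν) : C.Sat μ M.T :=
  PC.sat_union M.F M.u M.uh (fun _ _ => M.mono) M.cov
    (fun _ hs => (J.bdd hs).imp fun _ hb a ha => (hb a ha).le)
    fun a => ⟨succ a, _, (M.univ a).mono h, M.ut _ _ _⟩

end UCh

/-- club many stages realise all types over small subobjects -/
theorem ev_real1 (P : Fam C.toPC) {θ : Cardinal.{0}} (hθ : C.k0 ≤ θ)
    (hP : ∀ n, #(C.U (P.ob n)) ≤ θ) (hS : C.PStab θ Unit) {Λ : Type} [LinearOrder Λ]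
    (M : UCh C (succ θ) (succ θ)) {f : C.U M.T → C.U (P.ev Λ)} (hf : C.IsH f) :
    ∀ᶠ δ in cf (succ θ), Real1 C θ (M.F δ) := by
  have h1 : ∀ δ, ∃ c ∈ range (M.u (succ δ)), ¬ Real1 C θ (M.F δ) → ∃ S ⊆ range (M.u δ),
      #S ≤ θ ∧ ∀ y ∈ range (M.u δ), ¬ C.El M.T M.T (I1 S y c) := fun δ => by
    by_cases h : Real1 C θ (M.F δ)
    · exact ⟨_, ⟨Classical.arbitrary _, rfl⟩, fun h' => absurd h h'⟩
    simp only [Real1, PC.Real, not_forall, not_exists] at h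
    obtain ⟨A, g, hg, hA, Z, e, c, he, h⟩ := h
    obtain ⟨a, H⟩ := real_of_univ (hθ.trans (le_succ θ)) (M.univ δ) hg (hA.trans (le_succ θ))
      Z e c he
    refine ⟨_, ⟨a, rfl⟩, fun _ => ⟨range fun x => M.u δ (g x), ?_, mk_range_le.trans hA, ?_⟩⟩
    · rintro _ ⟨x, rfl⟩
      exact ⟨_, rfl⟩
    · rintro _ ⟨y, rfl⟩ H'
      refine h y (El.trans H ((I1.symm H').pull (M.uh _) (M.uh δ) fun _ _ r => r) ?_)
      rintro _ _ (⟨x, rfl, rfl⟩ | ⟨rfl, rfl⟩)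
      · exact ⟨_, Or.inl (G.mk _ _ x), Or.inl ⟨⟨x, (M.ut _ _ _ _).symm⟩, M.ut _ _ _ _⟩⟩
      · exact ⟨_, Or.inr ⟨rfl, rfl⟩, Or.inr ⟨rfl, rfl⟩⟩
  choose c hc hc' using h1
  filter_upwards [conv P (C.inf.trans hθ) hP hS hf (fun a => range (M.u a))
    (fun a => mk_range_le.trans (M.card a)) c, ev_lim] with δ hδ hl
  by_contra h
  obtain ⟨S, k1, k2, k3⟩ := hc' δ h
  obtain ⟨γ, k4, k5⟩ := hδ S k2 fun y hy => by
    obtain ⟨z, rfl⟩ := k1 hy
    obtain ⟨a, ha, x, rfl⟩ := M.cont δ hl z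
    exact ⟨a, ha, x, (M.ut _ _ _ _).symm⟩
  exact k3 _ (M.mono (succ_le_of_lt k4) (hc γ)) k5

/-- a limit stage embeds into a union of saturated subobjects, covering a small set -/
theorem back_forth {μ : Cardinal.{0}} (hμ : C.k0 ≤ μ) (M : UCh C μ μ) {δ : J μ}
    (hδ : IsSuccLimit δ) {T : C.Obj} (Q : J μ → Set (C.U T)) (hm : Monotone Q)
    (hQ : ∀ i < δ, ∃ (E : C.Obj) (w : C.U E → C.U T), C.IsH w ∧ range w = Q i ∧ C.Sat μ E)
    {S : Set (C.U T)} (hS : #S ≤ μ) (hc : ∀ y ∈ S, ∃ i < δ, y ∈ Q i) :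
    ∃ k : C.U (M.F δ) → C.U T, C.IsH k ∧ S ⊆ range k := by
  have hi := C.inf.trans hμ
  obtain ⟨a, hP, hR⟩ := chain_rec (Λ := J μ) (A := J μ × (C.U M.T → C.U T))
    (fun i a => a.1 = i ∧ (i ≤ δ → C.IsH (fun x => a.2 (M.u i x)) ∧
      (i < δ → ∀ x, a.2 (M.u i x) ∈ Q i) ∧
      ∀ j, i = succ j → S ∩ Q j ⊆ range fun x => a.2 (M.u i x)))
    (fun a b => b.1 ≤ δ → ∀ x, b.2 (M.u a.1 x) = a.2 (M.u a.1 x)) (by
      intro i a hP hR
      by_cases hiδ : i ≤ δ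
      swap
      · exact ⟨⟨i, fun _ => Classical.arbitrary _⟩, ⟨rfl, fun h => absurd h hiδ⟩,
          fun _ h => absurd h hiδ⟩
      have hR' : ∀ k l : Iio i, k ≤ l → ∀ x, (a l).2 (M.u k x) = (a k).2 (M.u k x) :=
        fun k l h x => by
          rcases h.eq_or_lt with rfl | h
          · rfl
          · have := hR k l h (by rw [(hP l).1]; exact l.2.le.trans hiδ)
            rw [(hP k).1] at this
            exact this x
      have hP' := fun k : Iio i => (hP k).2 (k.2.le.trans hiδ)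
      suffices H : ∃ k : C.U (M.F i) → C.U T, C.IsH k ∧ (i < δ → ∀ x, k x ∈ Q i) ∧
          (∀ j, i = succ j → S ∩ Q j ⊆ range k) ∧
          ∀ (l : Iio i) x, k (M.t l i l.2.le x) = (a l).2 (M.u l x) by
        obtain ⟨k, k1, k2, k3, k4⟩ := H
        have e : ∀ x, k (invFun (M.u i) (M.u i x)) = k x := fun x => by
          rw [leftInverse_invFun (C.inj (M.uh i))]
        refine ⟨⟨i, fun y => k (invFun (M.u i) y)⟩, ⟨rfl, fun _ => ?_⟩, fun l _ => ?_⟩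
        · simp only [e]
          exact ⟨k1, k2, k3⟩
        · rw [(hP l).1]
          intro x
          rw [← k4, ← e, M.ut]
      rcases eq_or_ne i ⊥ with rfl | h0
      · obtain ⟨E, w, l1, l2, l3⟩ := hQ ⊥ hδ.bot_lt
        obtain ⟨f, m1, -⟩ := l3.ext (M.card ⊥) (El.empty _ E)
        exact ⟨_, C.comp m1 l1, fun _ x => l2 ▸ ⟨_, rfl⟩,
          fun j e => absurd (e ▸ lt_succ j) not_lt_bot, fun l => (not_lt_bot (a := l.1) l.2).elim⟩
      by_cases hl : IsSuccLimit i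
      · obtain ⟨k, k1, k2⟩ := CC.lift_chain (C := C.toCC) (ι := Iio i) (fun l => M.F l)
          (fun l l' h => M.t l l' h) (fun l => M.t l i l.2.le) (fun l x => (a l).2 (M.u l x))
          (fun l => M.th _ _ _) (fun l => (hP' l).1)
          (fun l l' h x => C.inj (M.uh i) (by rw [M.ut, M.ut, M.ut]))
          (fun l l' h x => by rw [M.ut, hR' l l' h])
          (fun y => by obtain ⟨b, hb, x, h⟩ := M.cont i hl y; exact ⟨⟨b, hb⟩, x, h⟩)
        refine ⟨k, k1, fun _ y => ?_, fun j e => absurd (e ▸ hl) (not_isSuccLimit_succ j), k2⟩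
        obtain ⟨b, hb, x, rfl⟩ := M.cont i hl y
        rw [k2 ⟨b, hb⟩]
        exact hm hb.le ((hP' ⟨b, hb⟩).2.1 (hb.trans_le hiδ) x)
      obtain ⟨j, rfl⟩ : ∃ j, succ j = i := by
        rcases not_isSuccLimit_iff.1 hl with h | h
        · exact absurd h.eq_bot h0
        · obtain ⟨γ, -, h⟩ := not_isSuccPrelimit_iff_succ_eq.1 h
          exact ⟨γ, h⟩
      have hj : j < δ := (lt_succ j).trans_le hiδ
      let g : Iio (succ j) := ⟨j, lt_succ j⟩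
      obtain ⟨E, w, l1, l2, l3⟩ := hQ j hj
      obtain ⟨κ0, m1, m2⟩ := factor (hP' g).1 l1 (by
        rintro _ ⟨x, rfl⟩
        rw [l2]
        exact (hP' g).2.1 hj x)
      obtain ⟨B, b, n1, n2, n3⟩ := ls' hμ E (S := range κ0 ∪ w ⁻¹' S) ((mk_union_le _ _).trans
        (add_le_of_le hi (mk_range_le.trans (M.card j))
          ((mk_preimage_of_injective _ _ (C.inj l1)).trans hS)))
      obtain ⟨κ, p1, p2⟩ := factor m1 n1 (subset_union_left.trans n2)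
      obtain ⟨q, q1, q2⟩ := Univ.ext (M.univ j) p1 (C.idH _) n3
      obtain ⟨f, r1, r2⟩ := l3.ext (M.card (succ j)) (El.span q1 n1)
      have r3 : ∀ y, f (q y) = b y := fun y => r2 _ _ (G.mk _ _ y)
      refine ⟨_, C.comp r1 l1, fun _ x => hm (le_succ j) (l2 ▸ ⟨_, rfl⟩), fun j' e => ?_,
        fun l x => ?_⟩
      · obtain rfl : j = j' := succ_injective e
        rintro y ⟨hy, hy'⟩
        rw [← l2] at hy'
        obtain ⟨z, rfl⟩ := hy'
        obtain ⟨z', rfl⟩ := n2 (Or.inr hy)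
        exact ⟨q z', congrArg w (r3 z')⟩
      · have hl' : l ≤ g := (lt_succ_iff (a := l.1) (b := j)).1 l.2
        have e1 : M.t l (succ j) l.2.le x = M.t j (succ j) (le_succ j) (M.t l j hl' x) :=
          C.inj (M.uh _) (by rw [M.ut, M.ut, M.ut])
        rw [e1, ← q2, r3, p2, m2, M.ut, hR' l g hl'])
  refine ⟨_, ((hP δ).2 le_rfl).1, fun y hy => ?_⟩
  obtain ⟨i, h1, h2⟩ := hc y hy
  have h3 := hδ.succ_lt h1
  obtain ⟨x, hx⟩ := ((hP (succ i)).2 h3.le).2.2 i rfl ⟨hy, h2⟩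
  have h4 := hR _ _ h3 (hP δ).1.le
  rw [(hP (succ i)).1] at h4
  exact ⟨M.t _ δ h3.le x, (congrArg _ (M.ut _ _ _ _)).trans ((h4 x).trans hx)⟩

/-- realising types over small subobjects gives saturation -/
theorem sat_of_real1 (h3 : S_RealExt) (h4 : S_RealChain) {θ : Cardinal.{0}} (hθ : C.k0 ≤ θ)
    (hS : C.PStab θ Unit) {T : C.Obj} (hT : Real1 C θ T) : C.Sat θ T := by
  have hi := C.inf.trans hθ
  intro B R hB hR
  let f0 : C.U B → C.U T := fun b => Classical.epsilon (R b)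
  have hf0 : ∀ b t, R b t → f0 b = t := fun b t r => hR.func (Classical.epsilon_spec ⟨t, r⟩) r
  obtain ⟨A0, v0, l1, l2, l3⟩ := ls' hθ T (S := range f0) (mk_range_le.trans hB)
  obtain ⟨F, t, k0, k1, k2, k3, k4, k5, k6⟩ := gchain (Λ := W θ)
    (St := Σ A : C.Obj, C.U A → C.U T) (ι := Unit) (fun S _ => C.U S.1)
    (fun S S' f => C.IsH (f ()) ∧ ∀ x, S'.2 (f () x) = S.2 x) (fun S => ⟨C.idH _, fun _ => rfl⟩)
    (fun _ _ _ f g hf hg => ⟨C.comp hf.1 hg.1, fun x => (hg.2 _).trans (hf.2 x)⟩)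
    (fun _ S => C.IsH S.2 ∧ #(C.U S.1) ≤ θ)
    (fun _ S S' f => ∀ (Z : C.Obj) (e : C.U S.1 → C.U Z) (c : C.U Z), C.IsH e →
      ∃ a', C.El Z T (G1 e S.2 c (S'.2 a'))) ⟨A0, v0⟩ ⟨l1, l3⟩
    (by
      rintro - ⟨A, v⟩ ⟨hv, hA⟩
      obtain ⟨A', g, n1, n2, n3⟩ := h3 C θ hθ hS A hA
      choose r hr using fun c => hT A v hv hA A' g c n1
      obtain ⟨A1, v1, m1, m2, m3⟩ := ls' hθ T (S := range v ∪ range r) ((mk_union_le _ _).trans
        (add_le_of_le hi (mk_range_le.trans hA) (mk_range_le.trans n2)))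
      obtain ⟨f, p1, p2⟩ := factor hv m1 (subset_union_left.trans m2)
      refine ⟨⟨A1, v1⟩, fun _ => f, ⟨p1, p2⟩, ⟨m1, m3⟩, fun Z e c he => ?_⟩
      obtain ⟨a', H⟩ := n3 Z e c he
      obtain ⟨a1, ha1⟩ := m2 (Or.inr ⟨a', rfl⟩)
      refine ⟨a1, El.trans H (hr a') ?_⟩
      rintro _ _ (⟨x, rfl, rfl⟩ | ⟨rfl, rfl⟩)
      · exact ⟨_, Or.inl (G.mk _ _ x), Or.inl (G.mk _ _ x)⟩
      · exact ⟨_, Or.inr ⟨rfl, rfl⟩, Or.inr ⟨rfl, ha1.symm⟩⟩)
    (by
      intro δ hδ c hc _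
      have : Nonempty (Iio δ) := ⟨⟨⊥, hδ.bot_lt⟩⟩
      obtain ⟨D, u, l1, l2, l3⟩ := C.colim (Iio δ) (fun a => (c.F a).1)
        (fun a b h => c.t a b h ()) (fun a b h => (c.hom a b h).1) (fun a => c.t_id a ())
        (fun a b d h h' => c.t_comp a b d h h' ())
      obtain ⟨k, m1, m2⟩ := CC.lift_chain (C := C.toCC) (fun a => (c.F a).1)
        (fun a b h => c.t a b h ()) u (fun a => (c.F a).2) l1 (fun a => (hc a).1) l2
        (fun a b h => (c.hom a b h).2) l3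
      exact ⟨⟨D, k⟩, fun a _ => u a, ⟨m1, card_cover u l3 hi (W.iio hi δ).le fun a => (hc a).2⟩,
        fun a => ⟨l1 a, m2 a⟩, fun a b h _ => l2 a b h, fun _ => l3⟩)
  obtain ⟨D, u, m1, m2, m3⟩ := C.colim (W θ) (fun a => (F a).1) (fun a b h => t a b h ())
    (fun a b h => (k2 a b h).1) (fun a => k3 a ()) (fun a b d h h' => k4 a b d h h' ())
  obtain ⟨k, n1, n2⟩ := CC.lift_chain (C := C.toCC) (fun a => (F a).1)
    (fun a b h => t a b h ()) u (fun a => (F a).2) m1 (fun a => (k1 a).1) m2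
    (fun a b h => (k2 a b h).2) m3
  have hU := (h4 C θ hi (fun a => (F a).1) D u m1
    (fun a b h => by rintro _ ⟨x, rfl⟩; exact ⟨_, m2 a b h x⟩)
    (by
      rintro δ hδ _ ⟨y, rfl⟩
      obtain ⟨a, ha, x, rfl⟩ := k6 δ hδ () y
      exact ⟨a, ha, x, (m2 _ _ _ _).symm⟩) m3
    (fun a Z e c he => by
      obtain ⟨a', H⟩ := k5 a Z e c he
      refine ⟨a', H.pull_right n1 ?_⟩
      rintro _ _ (⟨x, rfl, rfl⟩ | ⟨rfl, rfl⟩)
      · exact Or.inl ⟨x, rfl, (n2 _ _).symm⟩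
      · exact Or.inr ⟨rfl, (n2 _ _).symm⟩)).post n1
  simp only [n2] at hU
  rw [k0] at hU
  obtain ⟨f, hf, H⟩ := hU B (fun b x => R b (v0 x)) hB (hR.pull_right l1 fun _ _ h => h)
  refine ⟨f, hf, fun b y r => ?_⟩
  obtain ⟨x, hx⟩ := l2 ⟨b, rfl⟩
  rw [hf0 b y r] at hx
  subst hx
  exact H b x r

end Pool.Agent.P.MP_860a31_lc.E.Sat2
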