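import Pool.Agent.P.MP_860a31_lc.E.Fam
import Pool.Agent.P.MP_860a31_lc.Ded

/-!
In a stable class, the type of an element of the value of a family over the part supported by
a small set does not depend on the position of the points of its support outside that set.
-/

open Cardinal hiding univ
open Set Order Function

namespace Pool.Agent.P.MP_860a31_lc.E.Sat2

open PC

/-- the identity on `S` together with one more pair -/
def I1 {α : Type} (S : Set α) (p p' : α) (a b : α) : Prop := (a ∈ S ∧ a = b) ∨ (p = a ∧ p' = b)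

/-- the elements supported in `Z` -/
def NZ {C : PC} (P : Fam C) {Λ : Type} [LinearOrder Λ] (Z : Set Λ) : Set (C.U (P.ev Λ)) :=
  {y | ∃ (n : ℕ) (s : Fin n ↪o Λ) (x : C.U (P.ob n)), (∀ i, s i ∈ Z) ∧ P.evi s x = y}

variable {C : AC}

theorem I1.refl (T : C.Obj) (S : Set (C.U T)) (p : C.U T) : C.El T T (I1 S p p) :=
  El.of_hom (C.idH _) (by rintro _ _ (⟨-, rfl⟩ | ⟨rfl, rfl⟩) <;> rfl)

theorem I1.symm {T : C.Obj} {S : Set (C.U T)} {p q : C.U T} (h : C.El T T (I1 S p q)) :
    C.El T T (I1 S q p) := h.symm' (by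
  rintro _ _ (⟨h, rfl⟩ | ⟨rfl, rfl⟩)
  · exact Or.inl ⟨h, rfl⟩
  · exact Or.inr ⟨rfl, rfl⟩)

theorem I1.trans {T : C.Obj} {S : Set (C.U T)} {p q r : C.U T} (h : C.El T T (I1 S p q))
    (h' : C.El T T (I1 S q r)) : C.El T T (I1 S p r) := El.trans h h' (by
  rintro _ _ (⟨h, rfl⟩ | ⟨rfl, rfl⟩)
  · exact ⟨_, Or.inl ⟨h, rfl⟩, Or.inl ⟨h, rfl⟩⟩
  · exact ⟨_, Or.inr ⟨rfl, rfl⟩, Or.inr ⟨rfl, rfl⟩⟩)

theorem evi_mem (P : Fam C.toPC) {Λ : Type} [LinearOrder Λ] (B : Set Λ) {n : ℕ} (s : Fin n ↪o Λ)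
    (h : ∀ i, s i ∈ B) (x : C.U (P.ob n)) :
    P.evi s x ∈ range (P.evmap (OrderEmbedding.subtype (· ∈ B))) := by
  refine ⟨P.evi (OrderEmbedding.ofStrictMono (fun i => (⟨s i, h i⟩ : B)) fun i j hij =>
    s.strictMono hij) x, ?_⟩
  rw [Fam.evmap_evi (C := C.toCC)]
  congr 1

/-- the first coordinate of the spreading map -/
noncomputable def fa {Λ Y : Type} [LinearOrder Λ] (z1 z0 : Λ) (y y0 y' : Y) (p : Λ) :
    WithBot (WithTop Y) :=
  if p < z1 then ⊥ else ((if p = z1 then y else if p < z0 then y0 else if p = z0 then y' else ⊤ :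
    WithTop Y) : WithBot (WithTop Y))

/-- the spreading map -/
noncomputable def sp {Λ Y : Type} [LinearOrder Λ] (z1 z0 : Λ) (y y0 y' : Y) (p : Λ) :
    WithBot (WithTop Y) ×ₗ Λ :=
  toLex (fa z1 z0 y y0 y' p, if p = z1 then z0 else p)

theorem sp_mono {Λ Y : Type} [LinearOrder Λ] [LinearOrder Y] {z1 z0 : Λ} (hz : z1 < z0)
    {y y0 y' : Y} (h1 : y < y0) (h2 : y0 ≤ y') : StrictMono (sp z1 z0 y y0 y') := by
  intro p q h
  rw [sp, sp, Prod.Lex.toLex_lt_toLex]
  simp only [fa]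
  rcases lt_trichotomy p z1 with hp | rfl | hp
  · by_cases hq : q < z1
    · simp [hp, hq, hp.ne, hq.ne, h]
    · simp [hp, hq]
  · left
    simp only [lt_irrefl, if_false, if_true, h.not_gt, h.ne', WithBot.coe_lt_coe]
    split_ifs
    · exact WithTop.coe_lt_coe.2 h1
    · exact WithTop.coe_lt_coe.2 (h1.trans_le h2)
    · exact WithTop.coe_lt_top _
  · have hq := hp.trans h
    simp only [hp.not_gt, hq.not_gt, hp.ne', hq.ne', if_false, WithBot.coe_lt_coe,
      WithBot.coe_inj, h, and_true]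
    rw [← le_iff_lt_or_eq]
    rcases lt_trichotomy p z0 with hp' | rfl | hp'
    · rw [if_pos hp']
      split_ifs
      · exact le_rfl
      · exact WithTop.coe_le_coe.2 h2
      · exact le_top
    · simp [h.not_gt, h.ne']
    · simp [(hp'.trans h).not_gt, (hp'.trans h).ne']

/-- moving one point -/
theorem swap1 (P : Fam C.toPC) {θ : Cardinal.{0}} (hθ : ℵ₀ ≤ θ) (hP : ∀ n, #(C.U (P.ob n)) ≤ θ)
    (hS : C.PStab θ Unit) {Λ : Type} [LinearOrder Λ] {Z : Set Λ} (hZ : #Z ≤ θ) {n : ℕ}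
    (s s' : Fin n ↪o Λ) (x : C.U (P.ob n)) (i0 : Fin n) (h : ∀ i, i ≠ i0 → s i = s' i)
    (hlt : s' i0 < s i0) (h0 : s i0 ∉ Z) (h1 : s' i0 ∉ Z) :
    C.El (P.ev Λ) (P.ev Λ) (I1 (NZ P Z) (P.evi s x) (P.evi s' x)) := by
  obtain ⟨Y, _, Y0, hY0, hY, hd⟩ := ded θ hθ
  let L := WithBot (WithTop Y) ×ₗ Λ
  let t : Y → Fin n → L := fun y i => toLex (if i < i0 then ⊥ else
    ((if i = i0 then y else ⊤ : WithTop Y) : WithBot (WithTop Y)), s i)
  have ht : ∀ y, StrictMono (t y) := fun y i j hij => by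
    rw [Prod.Lex.toLex_lt_toLex]
    simp only [s.strictMono hij, and_true]
    rw [← le_iff_lt_or_eq]
    by_cases hi : i < i0
    · simp [hi]
    · have hj := (not_lt.1 hi).trans_lt hij
      simp [hi, hj.not_gt, hj.ne']
  let c0 : Option (Option Y0) → WithBot (WithTop Y) := fun o =>
    o.elim ⊥ fun o' => ((o'.elim ⊤ fun y => ((y : Y) : WithTop Y) : WithTop Y) : WithBot (WithTop Y))
  let B : Set L := range fun p : Option (Option Y0) × Z => toLex (c0 p.1, (p.2 : Λ))
  have hB : #B ≤ θ := by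
    refine mk_range_le.trans ?_
    rw [mk_prod, lift_id, lift_id, mk_option, mk_option]
    have h1 := one_le_aleph0.trans hθ
    exact mul_le_of_le hθ (add_le_of_le hθ (add_le_of_le hθ hY0 h1) h1) hZ
  let b : Y → C.U (P.ev L) := fun y => P.evi (OrderEmbedding.ofStrictMono (t y) (ht y)) x
  have key : ∀ y y', y < y' → C.El (P.ev L) (P.ev L)
      (I1 (range (P.evmap (OrderEmbedding.subtype (· ∈ B)))) (b y') (b y)) →
      C.El (P.ev Λ) (P.ev Λ) (I1 (NZ P Z) (P.evi s x) (P.evi s' x)) := fun y y' hy H => by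
    obtain ⟨y0, hy0, k1, k2⟩ := hd y y' hy
    let ψ : Λ ↪o L := OrderEmbedding.ofStrictMono _ (sp_mono hlt k1 k2)
    have hlo : ∀ i < i0, s i < s' i0 := fun i hi => by rw [h i hi.ne]; exact s'.strictMono hi
    have hhi : ∀ i, i0 < i → s i0 < s i := fun i hi => s.strictMono hi
    have hoth : ∀ y1, ∀ i, i ≠ i0 → ψ (s i) = t y1 i := fun y1 i hi => by
      change toLex (_, _) = toLex (_, _)
      rcases lt_or_gt_of_ne hi with hi' | hi'
      · simp [fa, hlo i hi', (hlo i hi').ne, hi']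
      · have e1 := hhi i hi'
        have e2 := hlt.trans e1
        simp [fa, e1.not_gt, e1.ne', e2.not_gt, e2.ne', hi'.not_gt, hi]
    refine H.pull (Fam.evmap_h (C := C.toCC) ψ) (Fam.evmap_h (C := C.toCC) ψ) ?_
    rintro _ _ (⟨⟨m, r, z, hr, rfl⟩, rfl⟩ | ⟨rfl, rfl⟩)
    · refine Or.inl ⟨?_, rfl⟩
      rw [Fam.evmap_evi (C := C.toCC)]
      refine evi_mem P B _ (fun i => ?_) _
      have e1 : r i ≠ s' i0 := fun e => h1 (e ▸ hr i)
      have e0 : r i ≠ s i0 := fun e => h0 (e ▸ hr i)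
      change sp _ _ _ _ _ (r i) ∈ B
      rw [sp, if_neg e1, fa, if_neg e1, if_neg e0]
      split_ifs
      · exact ⟨(none, ⟨_, hr i⟩), rfl⟩
      · exact ⟨(some (some ⟨y0, hy0⟩), ⟨_, hr i⟩), rfl⟩
      · exact ⟨(some none, ⟨_, hr i⟩), rfl⟩
    · refine Or.inr ⟨?_, ?_⟩
      · rw [Fam.evmap_evi (C := C.toCC)]
        refine congrArg (fun r => P.evi r x) (RelEmbedding.ext fun i => ?_)
        by_cases hi : i = i0
        · subst hi
          change toLex (_, _) = toLex (_, _)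
          simp [fa, hlt.not_gt, hlt.ne']
        · exact (hoth y' i hi).symm
      · rw [Fam.evmap_evi (C := C.toCC)]
        refine congrArg (fun r => P.evi r x) (RelEmbedding.ext fun i => ?_)
        by_cases hi : i = i0
        · subst hi
          change toLex (_, _) = toLex (_, _)
          simp [fa]
        · change _ = ψ (s' i)
          rw [← h i hi]
          exact (hoth y i hi).symm
  obtain ⟨y, y', hne, H⟩ := hS (P.ev B) (P.ev L) _
    (Fam.evmap_h (C := C.toCC) (OrderEmbedding.subtype (· ∈ B)))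
    (Fam.card_ev_le (C := C.toCC) P _ hθ hB hP) Y (fun y _ => b y) hY
  have H' : C.El (P.ev L) (P.ev L)
      (I1 (range (P.evmap (OrderEmbedding.subtype (· ∈ B)))) (b y) (b y')) := H.mono (by
    rintro _ _ (⟨⟨z, rfl⟩, rfl⟩ | ⟨rfl, rfl⟩)
    · exact Or.inl (G.mk _ _ z)
    · exact Or.inr ⟨(), rfl, rfl⟩)
  rcases lt_or_gt_of_ne hne with hy | hy
  · exact key y y' hy (I1.symm H')
  · exact key y' y hy H'

/-- moving all points outside `Z` -/
theorem swap (P : Fam C.toPC) {θ : Cardinal.{0}} (hθ : ℵ₀ ≤ θ) (hP : ∀ n, #(C.U (P.ob n)) ≤ θ)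
    (hS : C.PStab θ Unit) {Λ : Type} [LinearOrder Λ] {Z : Set Λ} (hZ : #Z ≤ θ) {n : ℕ}
    (x : C.U (P.ob n)) (s s' : Fin n ↪o Λ) (h : ∀ i, s i = s' i ∨ (s i ∉ Z ∧ s' i ∉ Z)) :
    C.El (P.ev Λ) (P.ev Λ) (I1 (NZ P Z) (P.evi s x) (P.evi s' x)) := by
  classical
  have main : ∀ k : ℕ, ∀ s s' : Fin n ↪o Λ, (∀ i, s i = s' i ∨ (s i ∉ Z ∧ s' i ∉ Z)) →
      (∀ i : Fin n, i.1 + k < n → s i = s' i) →
      C.El (P.ev Λ) (P.ev Λ) (I1 (NZ P Z) (P.evi s x) (P.evi s' x)) := by
    intro k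
    induction k with
    | zero =>
      intro s s' _ h2
      obtain rfl : s = s' := RelEmbedding.ext fun i => h2 i i.2
      exact I1.refl _ _ _
    | succ k ih =>
      have step : ∀ s s' : Fin n ↪o Λ, (∀ i, s i = s' i ∨ (s i ∉ Z ∧ s' i ∉ Z)) →
          (∀ i : Fin n, i.1 + (k + 1) < n → s i = s' i) → ∀ i0 : Fin n, i0.1 + (k + 1) = n →
          s' i0 < s i0 → C.El (P.ev Λ) (P.ev Λ) (I1 (NZ P Z) (P.evi s x) (P.evi s' x)) := by
        intro s s' h1 h2 i0 hi0 hlt
        have hZ0 := (h1 i0).resolve_left hlt.ne'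
        let s'' : Fin n ↪o Λ := OrderEmbedding.ofStrictMono (update s i0 (s' i0)) fun i j hij => by
          by_cases hi : i = i0
          · subst hi
            rw [update_self, update_of_ne hij.ne']
            exact hlt.trans (s.strictMono hij)
          · rw [update_of_ne hi]
            by_cases hj : j = i0
            · subst hj
              rw [update_self, h2 i (by have := Fin.lt_def.1 hij; omega)]
              exact s'.strictMono hij
            · rw [update_of_ne hj]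
              exact s.strictMono hij
        have e0 : s'' i0 = s' i0 := update_self _ _ _
        have e1 : ∀ i, i ≠ i0 → s'' i = s i := fun i hi => update_of_ne hi _ _
        refine I1.trans (swap1 P hθ hP hS hZ s s'' x i0 (fun i hi => (e1 i hi).symm)
          (e0 ▸ hlt) hZ0.1 (e0 ▸ hZ0.2)) (ih s'' s' (fun i => ?_) fun i hi => ?_)
        · by_cases hi : i = i0
          · exact Or.inl (hi ▸ e0)
          · rw [e1 i hi]; exact h1 i
        · by_cases hi' : i = i0
          · exact hi' ▸ e0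
          · rw [e1 i hi']
            exact h2 i (by have := fun e => hi' (Fin.ext e); omega)
      intro s s' h1 h2
      by_cases hk : k + 1 ≤ n
      · let i0 : Fin n := ⟨n - (k + 1), by omega⟩
        have hi0 : i0.1 + (k + 1) = n := by simp only [i0]; omega
        rcases lt_trichotomy (s' i0) (s i0) with hl | he | hl
        · exact step s s' h1 h2 i0 hi0 hl
        · refine ih s s' h1 fun i hi => ?_
          by_cases hi' : i = i0
          · exact hi' ▸ he.symm
          · exact h2 i (by have := fun e => hi' (Fin.ext e); omega)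
        · exact I1.symm (step s' s (fun i => (h1 i).imp Eq.symm And.symm)
            (fun i hi => (h2 i hi).symm) i0 hi0 hl)
      · exact ih s s' h1 fun i hi => by omega
  exact main n s s' h fun i hi => by omega

end Pool.Agent.P.MP_860a31_lc.E.Sat2
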